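import Pool.Agent.MP79dd7e.SmallFinal
import Pool.Agent.MP79dd7e.Infinite

set_option autoImplicit false

/-! Question Q1 of MP_79dd7e_co: for every `n ≥ 2` there is a convex `(2n+1)`-gon with more than
`2n+1` quadrisections. For `n = 2, 3` these are explicit polygons symmetric about an axis, with
certified sign changes of the area profile; for `n ≥ 4` one cuts the four corners of a square by
convex chains of equal area, and then all pairs of perpendicular lines through the centre with
slopes in an interval are quadrisections. -/

namespace Pool.Agent.Results.MP_79dd7e_co.MoreQuadrisections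

open Pool.Agent.MP79dd7e

theorem result (n : ℕ) (hn : 2 ≤ n) :
    ∃ R : Set (ℝ × ℝ), IsConvexGon (2 * n + 1) R ∧
      ((2 * n + 1 : ℕ) : ℕ∞) < numQuadrisections R := by
  rcases Nat.lt_or_ge n 4 with h | h
  · interval_cases n
    · obtain ⟨R, h1, h2⟩ := pentagon
      exact ⟨R, h1, by exact_mod_cast h2⟩
    · obtain ⟨R, h1, h2⟩ := heptagon
      exact ⟨R, h1, by exact_mod_cast h2⟩
  · obtain ⟨R, h1, h2⟩ := large h
    exact ⟨R, h1, by rw [h2]; exact ENat.coe_lt_top _⟩

end Pool.Agent.Results.MP_79dd7e_co.MoreQuadrisections
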